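import Mathlib

/-!
# An open convex set whose closure locates a monotone operator need not locate it
-/

namespace Pool.Agent.Results.MP_ddf116_an.ClosureLocates

/-- Monotone operators, identified with their graphs. -/
def IsMonotoneOp {X : Type} [AddCommGroup X] [Module ℝ X] [TopologicalSpace X]
    (T : Set (X × (X →L[ℝ] ℝ))) : Prop :=
  ∀ p ∈ T, ∀ q ∈ T, 0 ≤ (p.2 - q.2) (p.1 - q.1)

/-- The domain of an operator. -/
def domOp {X : Type} [AddCommGroup X] [Module ℝ X] [TopologicalSpace X]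
    (T : Set (X × (X →L[ℝ] ℝ))) : Set X :=
  {x | ∃ f : X →L[ℝ] ℝ, (x, f) ∈ T}

/-- The restriction of an operator to a set. -/
def restrictOp {X : Type} [AddCommGroup X] [Module ℝ X] [TopologicalSpace X]
    (T : Set (X × (X →L[ℝ] ℝ))) (V : Set X) : Set (X × (X →L[ℝ] ℝ)) :=
  {p | p ∈ T ∧ p.1 ∈ V}

/-- The point `p` is monotonically related to the operator `S`. -/
def MonRelated {X : Type} [AddCommGroup X] [Module ℝ X] [TopologicalSpace X]
    (p : X × (X →L[ℝ] ℝ)) (S : Set (X × (X →L[ℝ] ℝ))) : Prop :=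
  ∀ q ∈ S, 0 ≤ (p.2 - q.2) (p.1 - q.1)

/-- The set `V` locates the operator `T`. -/
def Locates {X : Type} [AddCommGroup X] [Module ℝ X] [TopologicalSpace X]
    (V : Set X) (T : Set (X × (X →L[ℝ] ℝ))) : Prop :=
  ∀ x ∈ V, ∀ f : X →L[ℝ] ℝ, MonRelated (x, f) (restrictOp T V) → x ∈ domOp T

/-- The counterexample operator on the plane. -/
def exT : Set ((ℝ × ℝ) × ((ℝ × ℝ) →L[ℝ] ℝ)) :=
  {p | (p.1.1 < 1 ∧ p.1.2 = 0 ∧ p.2 = 0) ∨
    (p.1 = (1, 0) ∧ ∃ y : ℝ, p.2 = y • ContinuousLinearMap.snd ℝ ℝ ℝ)}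

theorem exT_mono : IsMonotoneOp exT := by
  rintro ⟨⟨a, b⟩, f⟩ hp ⟨⟨c, d⟩, g⟩ hq
  rcases hp with ⟨h1, h2, h3⟩ | ⟨h1, y, h2⟩ <;> rcases hq with ⟨k1, k2, k3⟩ | ⟨k1, z, k2⟩
  · simp only at h1 h2 h3 k1 k2 k3
    simp [h3, k3]
  · simp only [Prod.mk.injEq] at h1 h2 h3 k1 k2
    simp [h3, k2, h2, k1.2]
  · simp only [Prod.mk.injEq] at h1 h2 k1 k2 k3
    simp [k3, h2, h1.2, k2]
  · simp only [Prod.mk.injEq] at h1 h2 k1 k2
    simp [h1.2, k1.2, h2, k2]

/-- There are an open convex subset `V` of the plane and a monotone operator `T` such that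
`V` meets the domain of `T`, the closure of `V` locates `T`, and `V` does not locate `T`. -/
theorem result : ¬ (∀ (X : Type) [AddCommGroup X] [Module ℝ X] [TopologicalSpace X]
    [IsTopologicalAddGroup X] [ContinuousSMul ℝ X] [LocallyConvexSpace ℝ X] [T2Space X]
    (T : Set (X × (X →L[ℝ] ℝ))) (V : Set X),
    IsMonotoneOp T → IsOpen V → Convex ℝ V → (V ∩ domOp T).Nonempty →
    Locates (closure V) T → Locates V T) := by
  intro H
  set V : Set (ℝ × ℝ) := {p | p.1 < 1} with hV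
  have hVopen : IsOpen V := isOpen_lt continuous_fst continuous_const
  have hVconv : Convex ℝ V := by
    have : V = (ContinuousLinearMap.fst ℝ ℝ ℝ) ⁻¹' (Set.Iio 1) := rfl
    rw [this]
    exact (convex_Iio 1).linear_preimage (ContinuousLinearMap.fst ℝ ℝ ℝ).toLinearMap
  have hne : (V ∩ domOp exT).Nonempty := by
    refine ⟨(0, 0), by simp [hV], 0, ?_⟩
    left
    simp
  have hcl : closure V ⊆ {p | p.1 ≤ 1} :=
    closure_minimal (fun p (hp : p.1 < 1) => le_of_lt hp)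
      (isClosed_le continuous_fst continuous_const)
  have h10 : ((1, 0) : ℝ × ℝ) ∈ closure V := by
    rw [mem_closure_iff_seq_limit]
    refine ⟨fun n : ℕ => (1 - 1 / ((n : ℝ) + 1), 0), fun n => ?_, ?_⟩
    · have : (0 : ℝ) < 1 / ((n : ℝ) + 1) := by positivity
      show (1 : ℝ) - 1 / ((n : ℝ) + 1) < 1
      linarith
    · have h1 : Filter.Tendsto (fun n : ℕ => (1 : ℝ) - 1 / ((n : ℝ) + 1)) Filter.atTop
          (nhds (1 - 0)) := tendsto_const_nhds.sub tendsto_one_div_add_atTop_nhds_zero_nat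
      rw [sub_zero] at h1
      exact h1.prodMk_nhds tendsto_const_nhds
  have hloc : Locates (closure V) exT := by
    rintro ⟨a, b⟩ hab f hf
    have ha : a ≤ 1 := hcl hab
    have key : ∀ y : ℝ, 0 ≤ f ((a, b) - (1, 0)) - y * b := by
      intro y
      have h := hf ((1, 0), y • ContinuousLinearMap.snd ℝ ℝ ℝ) ⟨Or.inr ⟨rfl, y, rfl⟩, h10⟩
      simpa using h
    have hb : b = 0 := by
      by_contra hb
      have h1 := key ((f ((a, b) - (1, 0)) + 1) / b)
      rw [div_mul_cancel₀ _ hb] at h1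
      linarith
    subst hb
    rcases lt_or_eq_of_le ha with ha | ha
    · exact ⟨0, Or.inl ⟨ha, rfl, rfl⟩⟩
    · subst ha
      exact ⟨0, Or.inr ⟨rfl, 0, by simp⟩⟩
  have hfin := H (ℝ × ℝ) exT V exT_mono hVopen hVconv hne hloc
  have hdom : ((0, 1) : ℝ × ℝ) ∈ domOp exT := by
    refine hfin (0, 1) (by simp [hV]) 0 ?_
    rintro ⟨⟨c, d⟩, g⟩ ⟨hq, hqV⟩
    rcases hq with ⟨k1, k2, k3⟩ | ⟨k1, z, k2⟩
    · simp only at k3
      simp [k3]
    · simp only [Prod.mk.injEq] at k1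
      have : c < 1 := hqV
      rw [k1.1] at this
      exact absurd this (lt_irrefl _)
  obtain ⟨f, hf⟩ := hdom
  rcases hf with ⟨_, k2, _⟩ | ⟨k1, _⟩
  · simp at k2
  · simp at k1

end Pool.Agent.Results.MP_ddf116_an.ClosureLocates
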